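import Mathlib
import Pool.Agent.helper9.MNE.Defs
import Pool.Agent.helper9.MNE.Cross

/-!
# Every minimal non-Engel variety of associative rings is a Cross variety
-/

universe u

open Pool.Agent.helper9.MNE

/-- Every minimal non-Engel variety of associative (not necessarily unital) rings is a Cross
variety: it is finitely based, locally finite, and has only finitely many critical rings up to
isomorphism. -/
theorem Pool.Agent.Results.MP_a5aec7_al.MinNonEngelCross.result :
    ∀ V : RingClass.{u}, IsMinimalNonEngel V → IsCross V :=
  fun _ hV => cross_of_minimal hV
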